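import Pool.Agent.helper69.DH.SpecR2

/-!
Row d2:rLD5 (helper69's SpecR2): the excess of a label which becomes critical before the level `n`.  Author: helper87.
-/

set_option autoImplicit false

open Filter Topology MeasureTheory
open scoped commutatorElement

namespace Pool.Agent.helper90.DH

open Pool.Agent.helper64.D2

theorem rLD5_tel (c : ℕ → ℝ) (a b : ℕ) (hab : a ≤ b) : ∑ s ∈ Finset.Ico a b, (c (s + 1) - c s) = c b - c a := by
  induction b, hab using Nat.le_induction with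
  | base => simp
  | succ b hb ih =>
    rw [Finset.sum_Ico_succ_top hb, ih]
    ring

/-- the elementary inequality for the differences of `e`. -/
theorem rLD5_inv (q a b : ℝ) (hq : 0 < q) (ha : 99 / 100 * q ≤ a) (hb : 99 / 100 * q ≤ b) :
    |1 / a - 1 / b| ≤ |a - b| / (99 / 100 * q) ^ 2 := by
  have h0 : 0 < 99 / 100 * q := by positivity
  have ha0 : 0 < a := lt_of_lt_of_le h0 ha
  have hb0 : 0 < b := lt_of_lt_of_le h0 hb
  have h1 : 1 / a - 1 / b = (b - a) / (a * b) := by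
    field_simp
  rw [h1, abs_div, abs_sub_comm, abs_of_pos (mul_pos ha0 hb0)]
  apply div_le_div_of_nonneg_left (abs_nonneg _) (by positivity)
  calc (99 / 100 * q) ^ 2 = (99 / 100 * q) * (99 / 100 * q) := sq _
    _ ≤ a * b := mul_le_mul ha hb h0.le ha0.le

theorem rLD5 (hBAS : rBAS_stmt) (hETA : rETA_stmt) (hVAR : rVAR_stmt) (hBRN : rBRN_stmt) (hNRM : rNRM_stmt) (hABL : rABL_stmt) : rLD5_stmt := by
  classical
  intro P S hR D hD F hF x i n hx hi hn hnS hcr
  obtain ⟨b1, b2, b3, b4, b5, b7⟩ := hBRN P S hR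
  obtain ⟨-, hB2, -, -, -, -, -, hB8, -, -⟩ := hBAS
  obtain ⟨N, rfl⟩ : ∃ N, n = N + 1 := ⟨n - 1, by omega⟩
  have hNS : N ≤ S := by omega
  have hN0 : P.s0 ≤ N := by omega
  rw [Nat.add_sub_cancel] at hcr
  have hRN : RHY P N := b1 N hNS
  have hDN : ROK P D (N + 1) := fun s hs => hD s (by omega)
  have hq1 : 1 ≤ P.q := hR.1.1
  have hs0 : 216 ≤ P.s0 := hR.1.2.2.2.1
  have hq : (0 : ℝ) < P.q := by exact_mod_cast hq1
  -- the variation
  have hvar : ∀ j < P.q, ∑ s ∈ Finset.Ico P.s0 N, |reta D.H (s + 1) (rpt P (s + 1) j (ci (s + 1) x)) - reta D.H s (rpt P s j (ci s x))| ≤ 25601 := by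
    intro j hj
    have hz := (b7 N j x hN0 hNS hj).1
    obtain ⟨hz1, hz2⟩ := abs_le.1 hz
    obtain ⟨hx1, hx2⟩ := hx
    exact hVAR P N hRN D hDN (ev (P.cm N j)⁻¹ x) (fun s => rpt P s j (ci s x)) (by linarith) (by linarith)
      (fun s h1 h2 => b2 s N j x h1 h2 hNS hj)
  have heta : ∀ s j, 0 ≤ reta D.H s (rpt P s j (ci s x)) ∧ reta D.H s (rpt P s j (ci s x)) ≤ 1 := by
    intro s j
    obtain ⟨⟨h1, h2, -, -⟩, -⟩ := hETA D.H s (rpt P s j (ci s x))
    exact ⟨h1, h2⟩
  -- the normalisation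
  have hnrm : ∀ s, P.s0 ≤ s → s ≤ N → ¬ rcr D s x → 99 / 100 * (P.q : ℝ) ≤ rNN P D.H s (ci s x) ∧ rNN P D.H s (ci s x) ≤ P.q := by
    intro s h1 h2 h3
    apply hNRM P S hR D hD s (ci s x) h1 (by omega) (hB8 s x (by omega) hx)
    intro t ht hk
    apply h3
    refine ⟨t, ht, ?_⟩
    rw [hB2 s t x ht]
    exact hk
  set η : ℕ → ℝ := fun s => reta D.H s (rpt P s i (ci s x)) with hη
  set M : ℕ → ℝ := fun s => rNN P D.H s (ci s x) with hM
  set e : ℕ → ℝ := fun s => (if rcr D s x then 0 else 1 / M s) - 1 / P.q with he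
  set c : ℕ → ℝ := fun s => if rcr D s x then 1 else 0 with hc
  have hmono : ∀ s, rcr D s x → rcr D (s + 1) x := by
    rintro s ⟨t, ht, h⟩
    exact ⟨t, by omega, h⟩
  have he1 : ∀ s, P.s0 ≤ s → s ≤ N → |e s| ≤ 1 / P.q := by
    intro s h1 h2
    by_cases h : rcr D s x
    · have : e s = - (1 / P.q) := by simp [he, h]
      rw [this, abs_neg, abs_of_pos (by positivity)]
    · obtain ⟨h3, h4⟩ := hnrm s h1 h2 h
      have hMs : 0 < M s := lt_of_lt_of_le (by positivity) h3
      have : e s = 1 / M s - 1 / P.q := by simp [he, h]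
      rw [this]
      have h5 : 1 / (P.q : ℝ) ≤ 1 / M s := one_div_le_one_div_of_le hMs h4
      rw [abs_of_nonneg (by linarith)]
      have h6 : 1 / M s ≤ 2 / P.q := by
        rw [div_le_div_iff₀ hMs hq]
        linarith
      have h7 : 2 / (P.q : ℝ) = 1 / P.q + 1 / P.q := by ring
      linarith
  have hde : ∀ s, P.s0 ≤ s → s + 1 ≤ N → |e (s + 1) - e s| ≤ |M (s + 1) - M s| / (99 / 100 * (P.q : ℝ)) ^ 2 + 2 / P.q * (c (s + 1) - c s) := by
    intro s h1 h2
    by_cases h : rcr D s x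
    · have h' := hmono s h
      have e1 : e (s + 1) - e s = 0 := by simp [he, h, h']
      have e2 : c (s + 1) - c s = 0 := by simp [hc, h, h']
      rw [e1, e2, abs_zero, mul_zero, add_zero]
      positivity
    · obtain ⟨h3, h4⟩ := hnrm s h1 (by omega) h
      have hMs : 0 < M s := lt_of_lt_of_le (by positivity) h3
      by_cases h' : rcr D (s + 1) x
      · have e1 : e (s + 1) - e s = - (1 / M s) := by
          simp only [he, h, h', if_true, if_false]
          ring
        have e2 : c (s + 1) - c s = 1 := by simp [hc, h, h']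
        rw [e1, e2, abs_neg, abs_of_pos (by positivity)]
        have h6 : 1 / M s ≤ 2 / P.q := by
          rw [div_le_div_iff₀ hMs hq]
          linarith
        have h7 : 0 ≤ |M (s + 1) - M s| / (99 / 100 * (P.q : ℝ)) ^ 2 := by positivity
        linarith
      · obtain ⟨h5, h6⟩ := hnrm (s + 1) (by omega) h2 h'
        have e1 : e (s + 1) - e s = 1 / M (s + 1) - 1 / M s := by simp [he, h, h']
        have e2 : c (s + 1) - c s = 0 := by simp [hc, h, h']
        rw [e1, e2, mul_zero, add_zero]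
        exact rLD5_inv P.q (M (s + 1)) (M s) hq h5 h3
  have hMv : ∑ s ∈ Finset.Ico P.s0 N, |M (s + 1) - M s| ≤ 25601 * P.q := by
    calc ∑ s ∈ Finset.Ico P.s0 N, |M (s + 1) - M s|
        ≤ ∑ s ∈ Finset.Ico P.s0 N, ∑ j ∈ Finset.range P.q, |reta D.H (s + 1) (rpt P (s + 1) j (ci (s + 1) x)) - reta D.H s (rpt P s j (ci s x))| := by
          apply Finset.sum_le_sum
          intro s _
          have : M (s + 1) - M s = ∑ j ∈ Finset.range P.q, (reta D.H (s + 1) (rpt P (s + 1) j (ci (s + 1) x)) - reta D.H s (rpt P s j (ci s x))) := by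
            rw [Finset.sum_sub_distrib]
            rfl
          rw [this]
          exact Finset.abs_sum_le_sum_abs _ _
      _ = ∑ j ∈ Finset.range P.q, ∑ s ∈ Finset.Ico P.s0 N, |reta D.H (s + 1) (rpt P (s + 1) j (ci (s + 1) x)) - reta D.H s (rpt P s j (ci s x))| := Finset.sum_comm
      _ ≤ ∑ _j ∈ Finset.range P.q, (25601 : ℝ) := Finset.sum_le_sum fun j hj => hvar j (Finset.mem_range.1 hj)
      _ = 25601 * P.q := by rw [Finset.sum_const, Finset.card_range, nsmul_eq_mul]; ring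
  have hcv : ∑ s ∈ Finset.Ico P.s0 N, (c (s + 1) - c s) ≤ 1 := by
    rw [rLD5_tel c P.s0 N hN0]
    have h1 : c N ≤ 1 := by
      simp only [hc]
      split_ifs <;> norm_num
    have h2 : 0 ≤ c P.s0 := by
      simp only [hc]
      split_ifs <;> norm_num
    linarith
  have hev : ∑ s ∈ Finset.Ico P.s0 N, |e (s + 1) - e s| ≤ 26124 / P.q := by
    calc ∑ s ∈ Finset.Ico P.s0 N, |e (s + 1) - e s|
        ≤ ∑ s ∈ Finset.Ico P.s0 N, (|M (s + 1) - M s| / (99 / 100 * (P.q : ℝ)) ^ 2 + 2 / P.q * (c (s + 1) - c s)) := by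
          apply Finset.sum_le_sum
          intro s hs
          obtain ⟨h1, h2⟩ := Finset.mem_Ico.1 hs
          exact hde s h1 (by omega)
      _ = (∑ s ∈ Finset.Ico P.s0 N, |M (s + 1) - M s|) / (99 / 100 * (P.q : ℝ)) ^ 2 + 2 / P.q * ∑ s ∈ Finset.Ico P.s0 N, (c (s + 1) - c s) := by
          rw [Finset.sum_add_distrib, Finset.sum_div, Finset.mul_sum]
      _ ≤ (25601 * P.q) / (99 / 100 * (P.q : ℝ)) ^ 2 + 2 / P.q * 1 := by gcongr
      _ ≤ 26124 / P.q := by
          have h2 : (25601 * (P.q : ℝ)) / (99 / 100 * (P.q : ℝ)) ^ 2 + 2 / P.q * 1 = (25601 / (99 / 100) ^ 2 + 2) / P.q := by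
            field_simp
          rw [h2]
          gcongr
          norm_num
  have hav : |η N * e N| + ∑ s ∈ Finset.Ico P.s0 N, |η (s + 1) * e (s + 1) - η s * e s| ≤ 51726 / P.q := by
    have h1 : |η N * e N| ≤ 1 / P.q := by
      rw [abs_mul, abs_of_nonneg (heta N i).1]
      calc η N * |e N| ≤ 1 * |e N| := mul_le_mul_of_nonneg_right (heta N i).2 (abs_nonneg _)
        _ = |e N| := one_mul _
        _ ≤ 1 / P.q := he1 N hN0 le_rfl
    have h2 : ∑ s ∈ Finset.Ico P.s0 N, |η (s + 1) * e (s + 1) - η s * e s| ≤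
        ∑ s ∈ Finset.Ico P.s0 N, (|η (s + 1) - η s| * (1 / P.q) + |e (s + 1) - e s|) := by
      apply Finset.sum_le_sum
      intro s hs
      obtain ⟨h3, h4⟩ := Finset.mem_Ico.1 hs
      have h5 : η (s + 1) * e (s + 1) - η s * e s = (η (s + 1) - η s) * e (s + 1) + η s * (e (s + 1) - e s) := by ring
      rw [h5]
      refine (abs_add_le _ _).trans (add_le_add ?_ ?_)
      · rw [abs_mul]
        exact mul_le_mul_of_nonneg_left (he1 (s + 1) (by omega) (by omega)) (abs_nonneg _)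
      · rw [abs_mul, abs_of_nonneg (heta s i).1]
        calc η s * |e (s + 1) - e s| ≤ 1 * |e (s + 1) - e s| := mul_le_mul_of_nonneg_right (heta s i).2 (abs_nonneg _)
          _ = _ := one_mul _
    have h6 : ∑ s ∈ Finset.Ico P.s0 N, |η (s + 1) - η s| ≤ 25601 := hvar i hi
    rw [Finset.sum_add_distrib, ← Finset.sum_mul] at h2
    have h7 : (∑ s ∈ Finset.Ico P.s0 N, |η (s + 1) - η s|) * (1 / P.q) ≤ 25601 * (1 / P.q) :=
      mul_le_mul_of_nonneg_right h6 (by positivity)
    have h8 : (51726 : ℝ) / P.q = 1 / P.q + (25601 * (1 / P.q) + 26124 / P.q) := by ring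
    linarith
  have habl := hABL (fun s => η s * e s) (fun s => F s x) P.s0 (N + 1) 8 hn
    (fun s h1 h2 => hF.1 s P.s0 h1 (by omega) le_rfl (by omega) x)
  rw [Nat.add_sub_cancel] at habl
  refine habl.trans ?_
  calc 8 * (|η N * e N| + ∑ s ∈ Finset.Ico P.s0 N, |η (s + 1) * e (s + 1) - η s * e s|) ≤ 8 * (51726 / P.q) := by gcongr
    _ ≤ 2 ^ 19 / P.q := by
        rw [← mul_div_assoc]
        gcongr
        norm_num

end Pool.Agent.helper90.DH
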