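import Pool.Agent.helper69.DH.SpecR

/-!
Row d2:rLOC (helper69's SpecR): locality.  Author: helper87.
-/

set_option autoImplicit false

open Filter Topology MeasureTheory
open scoped commutatorElement

namespace Pool.Agent.helper90.DH

open Pool.Agent.helper64.D2

theorem rLOC_rin (A A' : ℕ → Finset ℤ) (r : ℝ) (s : ℕ) (z : ℝ) (h : ∀ t, t ≤ s → A t = A' t) :
    rin A r s z = rin A' r s z := by
  unfold rin
  apply propext
  constructor
  · rintro ⟨t, ht, n, hn, hz⟩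
    exact ⟨t, ht, n, h t ht ▸ hn, hz⟩
  · rintro ⟨t, ht, n, hn, hz⟩
    exact ⟨t, ht, n, (h t ht).symm ▸ hn, hz⟩

theorem rLOC_rAc (A A' : ℕ → Finset ℤ) (r : ℝ) (s : ℕ) (z : ℝ) (h : ∀ t, t ≤ s → A t = A' t) :
    rAc A r s z = rAc A' r s z := by
  unfold rAc
  apply Finset.filter_congr
  intro t ht
  rw [h t (Nat.lt_succ_iff.1 (Finset.mem_range.1 ht))]

theorem rLOC_rcc (P P' : RQ) (s : ℕ) (hc : P.cm s = P'.cm s) (i : ℕ) (m : ℤ) : rcc P s i m = rcc P' s i m := by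
  unfold rcc
  rw [hc]

theorem rLOC_rbb (P P' : RQ) (s : ℕ) (hc : P.cm s = P'.cm s) (i : ℕ) (m : ℤ) : rbb P s i m = rbb P' s i m := by
  unfold rbb
  rw [hc]

theorem rLOC_rhp (P P' : RQ) (H H' : ℕ → Finset ℤ) (e s : ℕ) (n : ℤ) (hq : P.q = P'.q) (hc : P.cm s = P'.cm s)
    (h : ∀ t, t ≤ s → H t = H' t) : rhp P H e s n = rhp P' H' e s n := by
  classical
  unfold rhp
  rw [hq]
  congr 1
  apply Finset.filter_congr
  intro k _
  rw [rLOC_rbb P P' s hc, rLOC_rin H H' _ s _ h]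

theorem rLOC_rdg (P P' : RQ) (K K' : ℕ → Finset ℤ) (e s : ℕ) (m : ℤ) (hq : P.q = P'.q) (hc : P.cm s = P'.cm s)
    (h : ∀ t, t ≤ s → K t = K' t) : rdg P K e s m = rdg P' K' e s m := by
  classical
  unfold rdg
  rw [hq]
  congr 1
  apply Finset.filter_congr
  intro k _
  rw [rLOC_rcc P P' s hc, rLOC_rin K K' _ s _ h]

theorem rLOC_rT2 (H H' : ℕ → Finset ℤ) (e s : ℕ) (m : ℤ) (h : ∀ t, t ≤ s → H t = H' t) :
    rT2 H e s m = rT2 H' e s m := by
  unfold rT2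
  rw [rLOC_rAc H H' _ s _ h]

theorem rLOC_rT3 (P P' : RQ) (H H' K K' : ℕ → Finset ℤ) (e s : ℕ) (m : ℤ) (hq : P.q = P'.q) (hc : P.cm s = P'.cm s)
    (h : ∀ t, t ≤ s → H t = H' t) (hK : ∀ t, t ≤ s → K t = K' t) : rT3 P H K e s m = rT3 P' H' K' e s m := by
  unfold rT3
  simp only [rLOC_rcc P P' s hc, rLOC_rhp P P' H H' e s _ hq hc h, rLOC_rdg P P' K K' e s _ hq hc hK, hq]

theorem rLOC_rCR (P P' : RQ) (H H' K K' : ℕ → Finset ℤ) (e s : ℕ) (n : ℤ) (hq : P.q = P'.q) (hc : P.cm s = P'.cm s)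
    (h : ∀ t, t ≤ s → H t = H' t) (hK : ∀ t, t ≤ s → K t = K' t) : rCR P H K e s n = rCR P' H' K' e s n := by
  classical
  have h1 : ∀ k, (rin H (rrh e) s (rlp s (rbb P s k n)) ∨ P.q ≤ 3000 * rdg P K e s (rbb P s k n)) ↔
      (rin H' (rrh e) s (rlp s (rbb P' s k n)) ∨ P'.q ≤ 3000 * rdg P' K' e s (rbb P' s k n)) := by
    intro k
    rw [rLOC_rbb P P' s hc, rLOC_rdg P P' K K' e s _ hq hc hK, hq, rLOC_rin H H' _ s _ h]
  unfold rCR
  rw [hq]
  have h2 : (Finset.range P'.q).filter (fun k => rin H (rrh e) s (rlp s (rbb P s k n)) ∨ P.q ≤ 3000 * rdg P K e s (rbb P s k n)) =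
      (Finset.range P'.q).filter (fun k => rin H' (rrh e) s (rlp s (rbb P' s k n)) ∨ P'.q ≤ 3000 * rdg P' K' e s (rbb P' s k n)) :=
    Finset.filter_congr fun k _ => h1 k
  rw [hq] at h2
  rw [h2]

theorem rLOC_rRZ (A A' : ℕ → Finset ℤ) (s : ℕ) (h : ∀ t, t ≤ s → A t = A' t) : rRZ A s = rRZ A' s := by
  unfold rRZ
  apply Finset.filter_congr
  intro m _
  constructor
  · rintro ⟨t, ht, hm⟩
    exact ⟨t, ht, h t ht ▸ hm⟩
  · rintro ⟨t, ht, hm⟩
    exact ⟨t, ht, (h t ht).symm ▸ hm⟩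

theorem rLOC_rDs (P P' : RQ) (H H' K K' : ℕ → Finset ℤ) (s : ℕ) (hl : P.ell = P'.ell) (hd : P.d1 = P'.d1)
    (h : ∀ t, t ≤ s → H t = H' t) (hK : ∀ t, t ≤ s → K t = K' t) : rDs P H K s → rDs P' H' K' s := by
  unfold rDs
  rw [rLOC_rRZ H H' s h, rLOC_rRZ K K' s hK, hl, hd]
  exact id

theorem rLOC_rFP (P P' : RQ) (H H' K K' : ℕ → Finset ℤ) (s : ℕ) (hq : P.q = P'.q) (hc : P.cm s = P'.cm s) (hT : P.T s = P'.T s)
    (h : ∀ t, t ≤ s → H t = H' t) (hK : ∀ t, t ≤ s → K t = K' t) : rFP P H K s → rFP P' H' K' s := by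
  rintro ⟨h1, h2⟩
  constructor
  · intro m
    have h3 := h1 m
    rw [h s le_rfl, hT, rLOC_rT2 H H' 0 s m h, rLOC_rT3 P P' H H' K K' 0 s m hq hc h hK] at h3
    rw [h3]
    constructor
    · rintro ⟨a, b, c⟩
      exact ⟨a, fun t ht => h t ht.le ▸ b t ht, c⟩
    · rintro ⟨a, b, c⟩
      exact ⟨a, fun t ht => (h t ht.le).symm ▸ b t ht, c⟩
  · intro n
    have h3 := h2 n
    rw [hK s le_rfl, rLOC_rCR P P' H H' K K' 0 s n hq hc h hK] at h3
    rw [h3]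
    constructor
    · rintro ⟨a, b, c⟩
      exact ⟨a, fun t ht => hK t ht.le ▸ b t ht, c⟩
    · rintro ⟨a, b, c⟩
      exact ⟨a, fun t ht => (hK t ht.le).symm ▸ b t ht, c⟩

theorem rLOC_rGK (P P' : RQ) (K K' : ℕ → Finset ℤ) (G G' : ℕ → ℤ → Finset ℕ) (s : ℕ) (hq : P.q = P'.q)
    (hc : ∀ t, t ≤ s → P.cm t = P'.cm t) (hK : ∀ t, t ≤ s → K t = K' t) (hG : G s = G' s) :
    rGK P K G s → rGK P' K' G' s := by
  unfold rGK
  have hs1 : s - 1 ≤ s := Nat.sub_le _ _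
  simp only [rLOC_rbb P P' s (hc s le_rfl), rLOC_rbb P P' (s - 1) (hc _ hs1), hq, hG, hK s le_rfl,
    rLOC_rdg P P' K K' 0 (s - 1) _ hq (hc _ hs1) (fun t ht => hK t (ht.trans hs1))]
  exact id

theorem rLOC : rLOC_stmt := by
  intro P P' D D' s hq hl hS hd h
  have hc : ∀ t, t ≤ s → P.cm t = P'.cm t := fun t ht => (h t ht).1
  have hT : ∀ t, t ≤ s → P.T t = P'.T t := fun t ht => (h t ht).2.1
  have hH : ∀ t, t ≤ s → D.H t = D'.H t := fun t ht => (h t ht).2.2.1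
  have hK : ∀ t, t ≤ s → D.K t = D'.K t := fun t ht => (h t ht).2.2.2.1
  have hG : ∀ t, t ≤ s → D.G t = D'.G t := fun t ht => (h t ht).2.2.2.2
  constructor
  · rintro ⟨h1, h2⟩
    constructor
    · intro hs
      rw [← hS] at hs
      rw [← hH s le_rfl, ← hK s le_rfl]
      exact h1 hs
    · intro hs
      rw [← hS] at hs
      obtain ⟨a, b, c⟩ := h2 hs
      exact ⟨rLOC_rFP P P' D.H D'.H D.K D'.K s hq (hc s le_rfl) (hT s le_rfl) hH hK a,
        rLOC_rDs P P' D.H D'.H D.K D'.K s hl hd hH hK b, rLOC_rGK P P' D.K D'.K D.G D'.G s hq hc hK (hG s le_rfl) c⟩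
  · intro i k
    have hpt : ∀ j, rpt P s j k = rpt P' s j k := by
      intro j
      unfold rpt
      rw [hc s le_rfl]
    have heta : ∀ z, reta D.H s z = reta D'.H s z := by
      intro z
      unfold reta ruu
      congr 2
      apply Finset.sum_congr rfl
      intro t ht
      rw [hH t (Nat.lt_succ_iff.1 (Finset.mem_range.1 ht))]
    have hNN : rNN P D.H s k = rNN P' D'.H s k := by
      unfold rNN
      rw [hq]
      apply Finset.sum_congr rfl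
      intro j _
      rw [heta, hpt]
    have hiff : ∀ t, (t ≤ s ∧ k / 2 ^ (s - t) ∈ D.K t) ↔ (t ≤ s ∧ k / 2 ^ (s - t) ∈ D'.K t) := by
      intro t
      constructor
      · rintro ⟨a, b⟩
        exact ⟨a, hK t a ▸ b⟩
      · rintro ⟨a, b⟩
        exact ⟨a, (hK t a).symm ▸ b⟩
    unfold rwt
    by_cases hex : ∃ t, t ≤ s ∧ k / 2 ^ (s - t) ∈ D.K t
    · have hex' : ∃ t, t ≤ s ∧ k / 2 ^ (s - t) ∈ D'.K t := by
        obtain ⟨t, ht⟩ := hex
        exact ⟨t, (hiff t).1 ht⟩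
      rw [dif_pos hex, dif_pos hex']
      have hf : Nat.find hex = Nat.find hex' := Nat.find_congr' (hiff _)
      have hle : Nat.find hex' ≤ s := (Nat.find_spec hex').1
      rw [hf, hG _ hle]
    · have hex' : ¬ ∃ t, t ≤ s ∧ k / 2 ^ (s - t) ∈ D'.K t := by
        rintro ⟨t, ht⟩
        exact hex ⟨t, (hiff t).2 ht⟩
      rw [dif_neg hex, dif_neg hex', heta, hpt, hNN, hq]

end Pool.Agent.helper90.DH
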